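import Pool.Agent.Helper95.LN.Stmts

/-!
# The kinetic energy is of order `n`: statements of the rows
-/

set_option autoImplicit false

namespace Pool.Agent.Helper26.LT

open MeasureTheory Filter Pool.Agent.Helper95.PW Pool.Agent.Helper95.LN

/-- attraction of the shell `et a` by its centre -/
noncomputable def wa (a : ℝ) : ℝ := ∫ y, et a y / nr y

/-- row PT3 (PT1 with `p = x`, `|x - X0| ≥ a / 2 ≥ 2 a'` on the support of the first factor) -/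
def ST_PT3 : Prop := ∀ (a a' : ℝ) (X0 : R3), 0 < a → 0 < a' → a' ≤ a / 4 →
  ∫ x, ∫ y, et a (x - X0) * et a' (y - X0) / nr (x - y) = kap * wa a

/-- row WLO (`nr y ≤ a` on the support) -/
def ST_WLO : Prop := ∀ a : ℝ, 0 < a → kap / a ≤ wa a

/-- row ENEG (TRE, ORB, PT1, PT2, PT3, WLO): the trial state of row EB with the radii
`a_m = d0 / 2 / 4^m`, `d0` large, all of them `≥ 2 C0` (`C0` the constant of ORB): the atom `j`
has energy `≤ ∑_m (C0 / a_m^2 + (Z_j - 1) wa(a_m) / kap - Z_j wa(a_m) / kap)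
≤ ∑_m (C0 / a_m^2 - 1 / a_m) ≤ - Z_j / d0` -/
def ST_ENEG : Prop := ∀ z : ℝ, 0 ≤ z → ∃ c d0 : ℝ, 0 < c ∧ 0 < d0 ∧ ∀ (n M : ℕ)
  (X : Fin M → R3) (Z : Fin M → ℕ) (E : ℝ), Sep X d0 → ∑ j, Z j = n → (∀ j, (Z j : ℝ) ≤ z) →
  LowM n X (fun j => (Z j : ℝ)) E → E + nucR X (fun j => (Z j : ℝ)) ≤ -(c * n)

/-- row ES2: ES1 with its constant (Helper97/LN/ES1.lean has it) -/
def ST_ES2 : Prop := ∀ z d : ℝ, 0 ≤ z → 0 < d → ∀ (n M : ℕ)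
  (X : Fin M → R3) (Z : Fin M → ℝ) (x : Cf n), Sep X d → Nuc n Z → (∀ j, Z j ≤ z) → Dist X x →
  1 / 2 * Dn (d / 8) X Z x + Rem (d / 8) x ≤
    Vc X Z x + 8 * (1 + z) / d * n + z * ∑ k, near1 X d (x k)

/-- row TLB (ES2, AED, HLOC, APXM, LMTM, QHM, INTM, KK; see Helper21/LN/TBL.lean):
`T ≤ E + nucR + (8 (1 + z) / d + z / (4 t)) n + z t C2 (T + n / d^2)`, `t = (z + 1) / c0` -/
def ST_TLB : Prop := ∀ z c0 : ℝ, 0 ≤ z → 0 < c0 → ∃ c d1 : ℝ, 0 < c ∧ 0 < d1 ∧ ∀ (d : ℝ) (n M : ℕ)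
  (X : Fin M → R3) (Z : Fin M → ℝ) (E : ℝ) (φ : Wf n) (G : Fin n → Fin 3 → Wf n), d1 ≤ d →
  1 ≤ n → Nuc n Z → (∀ j, Z j ≤ z) → Sep X d → E + nucR X Z ≤ -(c0 * n) →
  GroundM n X Z E φ G → c * n ≤ kinG G

end Pool.Agent.Helper26.LT
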